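import Pool.Agent.Q55.SM.Reg
import Pool.Agent.Q55.SM.Sep
import Pool.Agent.Q65.SM.Inst
import Pool.Agent.Q65.SM.Eqq
import Pool.Agent.Q65.SM.Cot
import Pool.Agent.Q129.SM.Dim
import Pool.Agent.Q129.SM.Tan
import Pool.Agent.Q177.SM.Dg
import Pool.Agent.Q177.SM.Gen
import Pool.Agent.Q198.SM.EulerLow

/-!
# The singular locus of the moduli spaces of endomorphisms of projective space

Let `k` be an algebraically closed field of characteristic zero, `N ≥ 2` and `d ≥ 2`.  The point
`[f]` of `M_d^N = End_d^N / PGL_{N+1}` is singular if and only if `f` has a nontrivial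
automorphism.

* `IsEnd d F`: the forms `F_0, …, F_N` of degree `d` in `N + 1` variables have no common zero
  except the origin, i.e. `f = [F_0 : … : F_N]` is an element of `End_d^N(k)`;
* `conj φ F`: the tuple `φ⁻¹ ∘ F ∘ φ`;
* `cf F`: the vector of the coefficients of `F_0, …, F_N`, a point of the affine cone over
  `End_d^N`;
* `locRing (cf F)`: the local ring of `M_d^N` at `[f]`: all rational functions `P / Q` in the
  coefficients of `N + 1` forms of degree `d` which do not change when the tuple of forms is
  conjugated by an element of `GL_{N+1}(k)` and multiplied by a nonzero scalar, and which are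
  regular at `f` (`Q(f) ≠ 0`).  This is the stalk at `[f]` of the sheaf `(π_* O)^{PGL}`, where
  `π : End_d^N → M_d^N` is the geometric quotient.

Proof.  Luna's slice argument (library `Helper819/Gr`): at a map without automorphisms every
linear form on the normal space of the orbit is the differential of an invariant function; there
the local ring is regular of dimension `n = dim End_d^N - dim PGL_{N+1}`.  If the maximal ideal of
the local ring at a map `f` with an automorphism were generated by `n` elements, their Jacobian
(along `n` directions transversal to the orbit) would vanish at `f`, hence on a hypersurface, and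
the Jacobian of every `n` invariant functions regular at `f` would vanish there.  As `N ≥ 2`, maps
with automorphisms have codimension at least two, so this hypersurface contains a map without
automorphisms, near `f` for the Zariski topology, at which `n` invariant functions regular at `f`
have a nonvanishing Jacobian.
-/

open MvPolynomial

namespace Pool.Agent.Results.MP_807a54_ag.SingularLocus

open Pool.Agent.Helper819.Dyn Pool.Agent.Helper819.Apolar Pool.Agent.Q55.SM

theorem nz_of_isEnd {k : Type} [Field k] {N d : ℕ} {F : Tuple k N} (hF : IsEnd d F) :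
    NZ F := by
  intro x hx
  have h1 := hF.2 (fun i => algebraMap k (AlgebraicClosure k) (x i)) (by
    intro i
    have h2 : aeval (fun i => algebraMap k (AlgebraicClosure k) (x i)) (F i) =
        algebraMap k (AlgebraicClosure k) (eval x (F i)) := by
      rw [← coe_aeval_eq_eval]
      exact aeval_algebraMap_apply (AlgebraicClosure k) x (F i)
    rw [h2, hx i, map_zero])
  funext i
  have h2 := congrFun h1 i
  exact (algebraMap k (AlgebraicClosure k)).injective (by rw [h2]; simp)

theorem hasAut_iff {k : Type} [Field k] {N d : ℕ} {F : Tuple k N} (hF : IsEnd d F) :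
    HasAut (cf F : Ix N d → k) ↔
      ∃ φ : GL (Fin (N + 1)) k,
        (¬ ∃ s : k, (φ : Matrix (Fin (N + 1)) (Fin (N + 1)) k) = s • 1) ∧
        ∃ t : kˣ, conj φ F = fun i => C (t : k) * F i := by
  have htup : tup (cf F : Ix N d → k) = F := tup_cf hF.1
  have hNZ : NZ (tup (cf F : Ix N d → k)) := by
    rw [htup]
    exact nz_of_isEnd hF
  constructor
  · rintro ⟨B, hB, hs, c, hc⟩
    have hc0 : c ≠ 0 := by
      rintro rfl
      have h1 := NZ_actT hNZ B hB
      rw [hc, zero_smul] at h1
      exact ne_zero_of_NZ h1 rfl
    refine ⟨toGL B hB, ?_, Units.mk0 (B.det⁻¹ * c) (mul_ne_zero (inv_ne_zero hB) hc0), ?_⟩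
    · rintro ⟨s, h⟩
      exact hs s h
    · funext i
      have h1 : act B F = fun i => C c * F i := by
        have h2 : tup (actT B (cf F : Ix N d → k)) = act B (tup (cf F)) := tup_actT B _
        rw [htup, hc, tup_smul, htup] at h2
        exact h2.symm
      rw [conj_eq, coe_toGL, h1, Units.val_mk0, C_mul]
      ring
  · rintro ⟨φ, hs, t, ht⟩
    refine ⟨φ, gl_det_ne φ, fun s h => hs ⟨s, h⟩,
      (φ : Matrix (Fin (N + 1)) (Fin (N + 1)) k).det * t, ?_⟩
    have h1 : conjC φ (cf F : Ix N d → k) = (t : k) • cf F := by
      unfold conjC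
      rw [htup, ht, cf_C_mul]
    rw [conjC_eq] at h1
    have h2 := congrArg (fun c => (φ : Matrix (Fin (N + 1)) (Fin (N + 1)) k).det • c) h1
    simp only [smul_smul] at h2
    rw [mul_inv_cancel₀ (gl_det_ne φ), one_smul] at h2
    exact h2

/-- **The singular locus of `M_d^N`.**  For `N ≥ 2` and `d ≥ 2` the local ring of the moduli space
`M_d^N` at the class of `f = [F_0 : … : F_N]` is not regular if and only if `f` has an
automorphism `φ ∈ PGL_{N+1}(k)`, `φ ≠ 1`. -/
theorem result {k : Type} [Field k] [IsAlgClosed k] [CharZero k] {N d : ℕ} (hN : 2 ≤ N)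
    (hd : 2 ≤ d) (F : Tuple k N) (hF : IsEnd d F) :
    ¬ IsRegularLocalRing (locRing (cf F : Ix N d → k)) ↔
      ∃ φ : GL (Fin (N + 1)) k,
        (¬ ∃ s : k, (φ : Matrix (Fin (N + 1)) (Fin (N + 1)) k) = s • 1) ∧
        ∃ t : kˣ, conj φ F = fun i => C (t : k) * F i := by
  have hNZ : NZ (tup (cf F : Ix N d → k)) := by
    rw [tup_cf hF.1]
    exact nz_of_isEnd hF
  rw [← hasAut_iff hF]
  have hQ : S_Q := Pool.Agent.Q65.SM.t_Q
  have hDet : S_Det := Pool.Agent.Q65.SM.t_Det
  have hDiag : S_Diag := Pool.Agent.Q177.SM.diag
  have hGen : S_Gen := Pool.Agent.Q177.SM.gen hQ hDiag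
  have hTan : S_Tan := Pool.Agent.Q129.SM.tan hQ
  have hDim : S_Dim := Pool.Agent.Q129.SM.dim
  have hPure : S_Pure := Pool.Agent.Q65.SM.pure sep (Pool.Agent.Q65.SM.eqq sep)
  constructor
  · intro h
    by_contra haut
    exact h (main_reg hPure Pool.Agent.Q198.SM.euler Pool.Agent.Q65.SM.cot
      Pool.Agent.Q198.SM.low Pool.Agent.Q65.SM.ht hd hNZ haut)
  · intro haut
    exact main_sing hDiag hGen hDet hTan hDim hN hd hNZ haut

end Pool.Agent.Results.MP_807a54_ag.SingularLocus
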